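import Pool.Agent.Q109.RC.All

/-!
MP_a40b8c_co, Q1: for every fixed `p` in `(0,1)` the consecutive sums of a `p`-random subset of
`[n]` are with high probability at least `c(p) n^2` in number.
-/

open Finset Filter Topology

namespace Pool.Agent.Results.MP_a40b8c_co.RandomConsecutiveSums

/-- `consecSums A` is the set of all sums `a_i + a_{i+1} + ⋯ + a_j` with `i ≤ j`, where
`a : Fin A.card ↪o ℕ` is the increasing enumeration of the finite set `A`. -/
def consecSums (A : Finset ℕ) : Finset ℕ :=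
  ((Finset.univ : Finset (Fin A.card × Fin A.card)).filter (fun q => q.1 ≤ q.2)).image
    (fun q => ∑ u ∈ Finset.Icc q.1 q.2, A.orderEmbOfFin rfl u)

open Classical in
/-- The probability that the `p`-random subset of `[n] = {1, …, n}` has the property `E`:
the subset `A` has probability `p ^ |A| * (1 - p) ^ (n - |A|)`. -/
noncomputable def prob (p : ℝ) (n : ℕ) (E : Finset ℕ → Prop) : ℝ :=
  ∑ A ∈ (Finset.Icc 1 n).powerset with E A, p ^ A.card * (1 - p) ^ (n - A.card)

theorem result : ∀ p : ℝ, 0 < p → p < 1 → ∃ c : ℝ, 0 < c ∧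
    Tendsto (fun n : ℕ => prob p n (fun A => c * (n : ℝ) ^ 2 ≤ ((consecSums A).card : ℝ)))
      atTop (𝓝 1) := by
  classical
  intro p hp0 hp1
  obtain ⟨c, hc, h⟩ := Q109.RC.all hp0 hp1
  refine ⟨c, hc, h.congr (fun n => ?_)⟩
  unfold Q109.RC.Pr Q109.RC.Ex prob
  rw [Finset.sum_filter]
  refine Finset.sum_congr rfl (fun A _ => ?_)
  rw [Nat.card_Icc, Nat.add_sub_cancel]
  by_cases hE : c * (n : ℝ) ^ 2 ≤ ((consecSums A).card : ℝ)
  · rw [if_pos hE]
    have : c * (n : ℝ) ^ 2 ≤ ((Q109.RC.S A).card : ℝ) := hE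
    simp [this]
  · rw [if_neg hE]
    have : ¬ (c * (n : ℝ) ^ 2 ≤ ((Q109.RC.S A).card : ℝ)) := hE
    simp only [this, if_false, mul_zero]

end Pool.Agent.Results.MP_a40b8c_co.RandomConsecutiveSums
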